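import Pool.Agent.Helper800_BS.Main

/-!
# Binary geometries with characteristic polynomial `(λ-1)(λ-2)⋯(λ-n)` need not be supersolvable

The question of Bogart and Stonesifer has a negative answer: for every `n ≥ 6` there is a binary
geometry of rank `n` with characteristic polynomial `(λ-1)(λ-2)⋯(λ-n)` that is not supersolvable.

The construction. Let `H` be the set of 18 points of `PG(4,2)` made of `PG(3,2)` minus a point `p` and of
the four points `e + a`, `a ∈ {0, s, p, p + s}`, with `e` outside `PG(3,2)`. Counting the linear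
maps to `F_2^k` that vanish nowhere on `H` (the critical problem) gives, with `q = 2^k`,
`(q-1)(q-2)(q-4) * ((q-8)(q-4) + (q-2)) = (q-1)(q-2)(q-4)(q-5)(q-6)`. No hyperplane of `H` is modular. The
missing factors `q-3`, `q-7`, `q-8`, ... are supplied by parallel connections along projective subspaces.
-/

set_option autoImplicit false

namespace Pool.Agent.Results.MP_e962e1_co.BinaryCounterexamples

open Pool.Agent.Helper800_BS Set Module Submodule

section

variable {V : Type} [AddCommGroup V] [Module (ZMod 2) V] [Finite V]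

theorem card_eq_ncard (U : Submodule (ZMod 2) V) : Nat.card U = (U : Set V).ncard := rfl

theorem card_prod_bot (U : Submodule (ZMod 2) V) :
    Nat.card (U.prod (⊥ : Submodule (ZMod 2) (ZMod 2))) = Nat.card U := by
  rw [card_eq_ncard, card_eq_ncard, Submodule.prod_coe, Set.ncard_prod]
  simp

theorem card_prod_top (U : Submodule (ZMod 2) V) :
    Nat.card (U.prod (⊤ : Submodule (ZMod 2) (ZMod 2))) = 2 * Nat.card U := by
  rw [card_eq_ncard, card_eq_ncard, Submodule.prod_coe, Set.ncard_prod]
  simp [Set.ncard_univ, mul_comm]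

end

theorem exists_cfg (n : ℕ) (hn : 6 ≤ n) :
    ∃ (V : Type) (_ : AddCommGroup V) (_ : Module (ZMod 2) V) (_ : Finite V) (S : Set V)
      (U : Submodule (ZMod 2) V) (H : Set V),
      Cfg n (fun k => ∏ i ∈ Finset.Icc 1 n, ((2 : ℤ) ^ k - (i : ℤ))) V S U H ∧
        n + 1 ≤ Nat.card U := by
  induction n, hn using Nat.le_induction with
  | base =>
    have hU : Nat.card (Submodule.prod (Submodule.prod ⊤ ⊥) ⊥ : Submodule (ZMod 2) V5) = 8 := by
      rw [card_prod_bot, card_prod_bot]
      simp
    obtain ⟨A', hA', hA3⟩ := Set.exists_subset_card_eq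
      (s := ((Submodule.prod (Submodule.prod ⊤ ⊥) ⊥ : Submodule (ZMod 2) V5) : Set V5)) (n := 3)
      (by rw [← card_eq_ncard, hU]; norm_num)
    have h6 := base_cfg.ext hA' (Set.nonempty_of_ncard_ne_zero (by omega))
      (Submodule.prod (Submodule.prod (Submodule.prod ⊤ ⊥) ⊥) ⊥) (by
        rintro ⟨u, c⟩ hu hne
        rw [Submodule.mem_prod, Submodule.mem_bot] at hu
        obtain ⟨hu1, hu2⟩ := hu
        have hc : c = 0 := hu2
        subst hc
        apply mem_ext_zero.2
        apply base_cfg.sub u hu1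
        rintro rfl
        exact hne rfl)
    have e : (fun k => ∏ i ∈ Finset.Icc (1 : ℕ) 6, ((2 : ℤ) ^ k - (i : ℤ)))
          = (fun k : ℕ => ((2 : ℤ) ^ k - 1) * ((2 : ℤ) ^ k - 2) * ((2 : ℤ) ^ k - 4) *
            ((2 : ℤ) ^ k - 5) * ((2 : ℤ) ^ k - 6) * ((2 : ℤ) ^ k - (A'.ncard : ℤ))) := by
      funext k
      rw [hA3]
      simp [Finset.prod_Icc_succ_top]
      ring
    rw [e]
    refine ⟨_, _, _, inferInstance, _, _, _, h6, ?_⟩
    rw [card_prod_bot, hU]
    norm_num
  | succ n hn ih =>
    obtain ⟨V, i1, i2, i3, S, U, H, hc, hU⟩ := ih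
    obtain ⟨A', hA', hAn⟩ := Set.exists_subset_card_eq (s := (U : Set V)) (n := n + 1)
      (by rw [← card_eq_ncard]; exact hU)
    have hP : (fun k => ∏ i ∈ Finset.Icc 1 (n + 1), ((2 : ℤ) ^ k - (i : ℤ)))
        = (fun k : ℕ => (∏ i ∈ Finset.Icc 1 n, ((2 : ℤ) ^ k - (i : ℤ))) *
          ((2 : ℤ) ^ k - (A'.ncard : ℤ))) := by
      funext k
      rw [hAn, Finset.prod_Icc_succ_top (by omega)]
    rw [hP]
    have hne : A'.Nonempty := Set.nonempty_of_ncard_ne_zero (by omega)
    by_cases hlt : n + 2 ≤ Nat.card U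
    · refine ⟨_, _, _, inferInstance, _, _, _, hc.ext hA' hne (U.prod ⊥) ?_, ?_⟩
      · rintro ⟨u, c⟩ hu hne
        rw [Submodule.mem_prod, Submodule.mem_bot] at hu
        obtain ⟨hu1, hu2⟩ := hu
        have hc' : c = 0 := hu2
        subst hc'
        apply mem_ext_zero.2
        apply hc.sub u hu1
        rintro rfl
        exact hne rfl
      · rw [card_prod_bot]; exact hlt
    · have hAU : A' = (U : Set V) := by
        apply Set.eq_of_subset_of_ncard_le hA'
        rw [← card_eq_ncard]
        omega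
      refine ⟨_, _, _, inferInstance, _, _, _, hc.ext hA' hne (U.prod ⊤) ?_, ?_⟩
      · rintro ⟨u, c⟩ hu hne
        rw [Submodule.mem_prod] at hu
        obtain ⟨hu1, -⟩ := hu
        rcases zmod2_cases c with rfl | rfl
        · apply mem_ext_zero.2
          apply hc.sub u hu1
          rintro rfl
          exact hne rfl
        · apply mem_ext_one.2
          rw [hAU]
          exact hu1
      · rw [card_prod_top]; omega

/-- **Bogart–Stonesifer, binary case: negative answer.** For every `n ≥ 6` there is a binary geometry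
of rank `n` with characteristic polynomial `(λ-1)(λ-2)⋯(λ-n)` that is not supersolvable. -/
theorem result : ∀ n : ℕ, 6 ≤ n →
    ∃ (α : Type) (_ : Finite α) (M : Matroid α),
      IsGeometry M ∧ IsBinary M ∧ M.eRank = (n : ℕ∞) ∧
      charPoly M = ∏ i ∈ Finset.Icc (1 : ℕ) n, (Polynomial.X - Polynomial.C (i : ℤ)) ∧
      ¬ IsSupersolvable M n := by
  intro n hn
  obtain ⟨V, i1, i2, i3, S, U, H, hc, -⟩ := exists_cfg n hn
  exact ⟨S, inferInstance, matOf S, isGeometry_matOf hc, isBinary_matOf S, eRank_matOf hc,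
    charPoly_matOf hc, not_supersolvable hc⟩

end Pool.Agent.Results.MP_e962e1_co.BinaryCounterexamples
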